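import Pool.Agent.NUR2.Prep

/-!
# The action of a transported two component gas, two densities (copy of `NUR2/Action`, `NUR2/Split`)

`ρ` is the density of the first species, `σ` of the second one.
-/

set_option autoImplicit false

open MeasureTheory Set Filter Topology NUKer

namespace NUR2

variable {m : Measure ℝ}

/-- the setting of one pair of species: maps `ψ` (first), `φ` (second), densities `ρ`, `σ`; `A` is the window -/
structure Pair2 (m : Measure ℝ) (A : Set ℝ) (ψ φ ρ σ b c : ℝ → ℝ) (K Q : ℝ → ℝ → ℝ) : Prop where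
  mem : ∀ᵐ x ∂m, x ∈ A
  hK : Ker m K
  hQ : Ker m Q
  cov : ∀ f : ℝ → ℝ, ∫ y, f (ψ y) * (ρ y + b y) ∂m = ∫ y, f y * ρ y ∂m
  cov' : ∀ f : ℝ → ℝ, ∫ y, f (φ y) * (σ y + c y) ∂m = ∫ y, f y * σ y ∂m
  eq : ∀ x ∈ A, ∀ᵐ y ∂m, K (ψ x) (φ y) = Q x y
  eq' : ∀ y ∈ A, ∀ᵐ x ∂m, K (ψ x) (φ y) = Q x y
  bρ : Bd m ρ
  bσ : Bd m σ
  bb : Bd m b
  bc : Bd m c

variable {ψ φ ρ σ b c : ℝ → ℝ} {K Q : ℝ → ℝ → ℝ} {A : Set ℝ}

lemma Pair2.conv (P : Pair2 m A ψ φ ρ σ b c K Q) {x : ℝ} (hx : x ∈ A) :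
    ∫ y, K (ψ x) y * σ y ∂m = (∫ y, Q x y * σ y ∂m) + ∫ y, Q x y * c y ∂m := by
  rw [← P.cov' (fun y => K (ψ x) y), ← integral_add (P.hQ.int1 P.bσ x) (P.hQ.int1 P.bc x)]
  refine integral_congr_ae ?_
  filter_upwards [P.eq x hx] with y hy
  rw [hy]
  ring

/-- the double integral of `κ = K - Q` against `ρ σ` -/
theorem Pair2.double [SFinite m] (P : Pair2 m A ψ φ ρ σ b c K Q) :
    TT m (fun x y => K x y - Q x y) ρ σ = TT m Q ρ c + TT m Q b σ + TT m Q b c := by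
  have h1 : TT m K ρ σ = TT m Q (fun x => ρ x + b x) (fun x => σ x + c x) := by
    unfold TT
    have e1 := P.cov (fun x => ∫ y, K x y * σ y ∂m)
    have e2 : ∫ x, ρ x * (∫ y, K x y * σ y ∂m) ∂m = ∫ x, (∫ y, K x y * σ y ∂m) * ρ x ∂m :=
      integral_congr_ae (Eventually.of_forall fun x => mul_comm _ _)
    rw [e2, ← e1]
    refine integral_congr_ae ?_
    filter_upwards [P.mem] with x hx
    rw [P.conv hx, mul_comm]
    congr 1
    rw [← integral_add (P.hQ.int1 P.bσ x) (P.hQ.int1 P.bc x)]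
    refine integral_congr_ae (Eventually.of_forall fun y => ?_)
    simp only
    ring
  rw [P.hK.TT_sub P.hQ P.bρ P.bσ, h1, P.hQ.TT_add_left P.bρ P.bb (P.bσ.add P.bc),
    P.hQ.TT_add_right P.bρ P.bσ P.bc, P.hQ.TT_add_right P.bb P.bσ P.bc]
  ring

lemma Pair2.flip [SFinite m] (P : Pair2 m A ψ φ ρ σ b c K Q) :
    Pair2 m A φ ψ σ ρ c b (fun x y => K y x) (fun x y => Q y x) :=
  ⟨P.mem, P.hK.symm, P.hQ.symm, P.cov', P.cov, P.eq', P.eq, P.bσ, P.bρ, P.bc, P.bb⟩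

/-- **constant term**: `LX`, `LY` are the linear terms -/
theorem const_eq2 [SFinite m] {ψX ψY bX bY : ℝ → ℝ} {KX QX KY QY Kc Qc : ℝ → ℝ → ℝ}
    (PX : Pair2 m A ψX ψX ρ ρ bX bX KX QX) (PY : Pair2 m A ψY ψY σ σ bY bY KY QY)
    (Pc : Pair2 m A ψX ψY ρ σ bX bY Kc Qc) (sX : ∀ x y, QX x y = QX y x) (sY : ∀ x y, QY x y = QY y x)
    {LX LY eX eY : ℝ → ℝ}
    (hLX : ∀ᵐ x ∂m, LX x = eX x + (∫ y, QX x y * bX y ∂m) + ∫ y, Qc x y * bY y ∂m)
    (hLY : ∀ᵐ x ∂m, LY x = eY x + (∫ y, QY x y * bY y ∂m) + ∫ y, Qc y x * bX y ∂m)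
    (ieX : Integrable (fun x => ρ x * eX x) m) (ieY : Integrable (fun x => σ x * eY x) m) :
    (∫ x, ρ x * LX x ∂m) + (∫ x, σ x * LY x ∂m) - 1 / 2 * TT m (fun x y => KX x y - QX x y) ρ ρ -
      1 / 2 * TT m (fun x y => KY x y - QY x y) σ σ - TT m (fun x y => Kc x y - Qc x y) ρ σ =
    (∫ x, ρ x * eX x ∂m) + (∫ x, σ x * eY x ∂m) - 1 / 2 * TT m QX bX bX - 1 / 2 * TT m QY bY bY -
      TT m Qc bX bY := by
  have e1 : ∫ x, ρ x * LX x ∂m = (∫ x, ρ x * eX x ∂m) + TT m QX ρ bX + TT m Qc ρ bY := by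
    have h1 : ∫ x, ρ x * LX x ∂m = ∫ x, ((ρ x * eX x + ρ x * ∫ y, QX x y * bX y ∂m) +
        ρ x * ∫ y, Qc x y * bY y ∂m) ∂m := by
      refine integral_congr_ae ?_
      filter_upwards [hLX] with x hx
      rw [hx]
      ring
    have a1 := integral_add (ieX.add (PX.hQ.intT PX.bρ PX.bb)) (Pc.hQ.intT Pc.bρ Pc.bc)
    have a2 := integral_add ieX (PX.hQ.intT PX.bρ PX.bb)
    simp only [Pi.add_apply] at a1
    rw [h1, a1, a2]
    rfl
  have e2 : ∫ x, σ x * LY x ∂m = (∫ x, σ x * eY x ∂m) + TT m QY σ bY + TT m (fun x y => Qc y x) σ bX := by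
    have h1 : ∫ x, σ x * LY x ∂m = ∫ x, ((σ x * eY x + σ x * ∫ y, QY x y * bY y ∂m) +
        σ x * ∫ y, Qc y x * bX y ∂m) ∂m := by
      refine integral_congr_ae ?_
      filter_upwards [hLY] with x hx
      rw [hx]
      ring
    have a1 := integral_add (ieY.add (PY.hQ.intT PY.bρ PY.bb)) (Pc.hQ.symm.intT Pc.bσ Pc.bb)
    have a2 := integral_add ieY (PY.hQ.intT PY.bρ PY.bb)
    simp only [Pi.add_apply] at a1
    rw [h1, a1, a2]
    rfl
  have s1 : TT m QX bX ρ = TT m QX ρ bX := by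
    rw [PX.hQ.TT_symm PX.bb PX.bρ]
    congr 1
    funext x y
    exact sX _ _
  have s2 : TT m QY bY σ = TT m QY σ bY := by
    rw [PY.hQ.TT_symm PY.bb PY.bρ]
    congr 1
    funext x y
    exact sY _ _
  have s3 : TT m (fun x y => Qc y x) σ bX = TT m Qc bX σ := by
    rw [Pc.hQ.TT_symm Pc.bb Pc.bσ]
  rw [e1, e2, PX.double, PY.double, Pc.double, s1, s2, s3]
  ring

section split

variable {R : ℝ} {ρ σ : ℝ → ℝ}

/-- linear terms of `Th`: `ρ` the own density, `σ` the one of the other species -/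
noncomputable def LX2 (R : ℝ) (ρ σ v : ℝ → ℝ) (κ κc : ℝ → ℝ → ℝ) (x : ℝ) : ℝ :=
  v x + (∫ y in (-R)..R, κ x y * ρ y) + ∫ y in (-R)..R, κc x y * σ y

theorem Th_split2 {p n : ℕ} {vX vY : ℝ → ℝ} {κX κY κc : ℝ → ℝ → ℝ}
    (hρ : Continuous ρ) (hσ : Continuous σ) (k5 : Continuous vX) (k6 : Continuous vY)
    (cX : Continuous fun p : ℝ × ℝ => κX p.1 p.2) (cY : Continuous fun p : ℝ × ℝ => κY p.1 p.2)
    (cc : Continuous fun p : ℝ × ℝ => κc p.1 p.2) (sX : ∀ x y, κX x y = κX y x)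
    (sY : ∀ x y, κY x y = κY y x) (x : Cfg p n) :
    Th vX vY κX κY κc x =
      nu R ρ x.1 (LX2 R ρ σ vX κX κc) + nu R σ x.2 (LX2 R σ ρ vY κY (fun y x => κc x y)) +
      1 / 2 * nu2 R ρ ρ x.1 x.1 κX + 1 / 2 * nu2 R σ σ x.2 x.2 κY + nu2 R ρ σ x.1 x.2 κc +
      ((∫ y in (-R)..R, LX2 R ρ σ vX κX κc y * ρ y) +
        (∫ y in (-R)..R, LX2 R σ ρ vY κY (fun y x => κc x y) y * σ y) -
        1 / 2 * (∫ y in (-R)..R, (∫ x in (-R)..R, κX x y * ρ x) * ρ y) -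
        1 / 2 * (∫ y in (-R)..R, (∫ x in (-R)..R, κY x y * σ x) * σ y) -
        ∫ x in (-R)..R, (∫ y in (-R)..R, κc x y * σ y) * ρ x) := by
  have k1 := cont_conv (R := R) cX hρ
  have k2 := cont_conv (R := R) cY hσ
  have k3 := cont_conv (R := R) cc hσ
  have k4 := cont_conv' (R := R) cc hρ
  have f1 : ∀ y : ℝ, (∫ x in (-R)..R, κX x y * ρ x) = ∫ z in (-R)..R, κX y z * ρ z := by
    intro y
    refine intervalIntegral.integral_congr fun z _ => ?_
    show κX z y * ρ z = κX y z * ρ z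
    rw [sX]
  have f2 : ∀ y : ℝ, (∫ x in (-R)..R, κY x y * σ x) = ∫ z in (-R)..R, κY y z * σ z := by
    intro y
    refine intervalIntegral.integral_congr fun z _ => ?_
    show κY z y * σ z = κY y z * σ z
    rw [sY]
  have a1 := sum_two (R := R) x.1 x.1 hρ hρ cX
  have a2 := sum_two (R := R) x.2 x.2 hσ hσ cY
  have a3 := sum_two (R := R) x.1 x.2 hρ hσ cc
  simp only [f1] at a1
  simp only [f2] at a2
  have g1 : nu R ρ x.1 (LX2 R ρ σ vX κX κc) = nu R ρ x.1 vX +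
      nu R ρ x.1 (fun x => ∫ y in (-R)..R, κX x y * ρ y) +
      nu R ρ x.1 (fun x => ∫ y in (-R)..R, κc x y * σ y) := by
    have k51 : Continuous fun x => vX x + ∫ y in (-R)..R, κX x y * ρ y := k5.add k1
    rw [← nu_add hρ k5 k1, ← nu_add hρ k51 k3]
    rfl
  have g2 : nu R σ x.2 (LX2 R σ ρ vY κY (fun y x => κc x y)) = nu R σ x.2 vY +
      nu R σ x.2 (fun x => ∫ y in (-R)..R, κY x y * σ y) +
      nu R σ x.2 (fun y => ∫ x in (-R)..R, κc x y * ρ x) := by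
    have k62 : Continuous fun x => vY x + ∫ y in (-R)..R, κY x y * σ y := k6.add k2
    rw [← nu_add hσ k6 k2, ← nu_add hσ k62 k4]
    rfl
  have g3 : ∫ y in (-R)..R, LX2 R ρ σ vX κX κc y * ρ y = (∫ y in (-R)..R, vX y * ρ y) +
      (∫ x in (-R)..R, (∫ y in (-R)..R, κX x y * ρ y) * ρ x) +
      ∫ x in (-R)..R, (∫ y in (-R)..R, κc x y * σ y) * ρ x := by
    have h1 := intervalIntegral.integral_add (a := -R) (b := R) (μ := volume)
      ((k5.mul hρ).intervalIntegrable _ _) ((k1.mul hρ).intervalIntegrable _ _)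
    have h2 := intervalIntegral.integral_add (a := -R) (b := R) (μ := volume)
      (((k5.mul hρ).add (k1.mul hρ)).intervalIntegrable _ _) ((k3.mul hρ).intervalIntegrable _ _)
    simp only [Pi.mul_apply, Pi.add_apply] at h1 h2
    rw [← h1, ← h2]
    refine intervalIntegral.integral_congr fun z _ => ?_
    simp only [LX2]
    ring
  have g4 : ∫ y in (-R)..R, LX2 R σ ρ vY κY (fun y x => κc x y) y * σ y =
      (∫ y in (-R)..R, vY y * σ y) +
      (∫ x in (-R)..R, (∫ y in (-R)..R, κY x y * σ y) * σ x) +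
      ∫ y in (-R)..R, (∫ x in (-R)..R, κc x y * ρ x) * σ y := by
    have h1 := intervalIntegral.integral_add (a := -R) (b := R) (μ := volume)
      ((k6.mul hσ).intervalIntegrable _ _) ((k2.mul hσ).intervalIntegrable _ _)
    have h2 := intervalIntegral.integral_add (a := -R) (b := R) (μ := volume)
      (((k6.mul hσ).add (k2.mul hσ)).intervalIntegrable _ _) ((k4.mul hσ).intervalIntegrable _ _)
    simp only [Pi.mul_apply, Pi.add_apply] at h1 h2
    rw [← h1, ← h2]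
    refine intervalIntegral.integral_congr fun z _ => ?_
    simp only [LX2]
    ring
  have b1 : ∑ i, vX (x.1 i) = nu R ρ x.1 vX + ∫ y in (-R)..R, vX y * ρ y := by
    unfold nu
    ring
  have b2 : ∑ i, vY (x.2 i) = nu R σ x.2 vY + ∫ y in (-R)..R, vY y * σ y := by
    unfold nu
    ring
  unfold Th Th1
  rw [a1, a2, a3, b1, b2, g1, g2, g3, g4]
  simp only [f1, f2]
  ring

lemma nu2_contXY2 {p n : ℕ} (hρ : Continuous ρ) (hσ : Continuous σ) {κ : ℝ → ℝ → ℝ}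
    (hκ : Continuous fun p : ℝ × ℝ => κ p.1 p.2) : Continuous fun x : Cfg p n => nu2 R ρ σ x.1 x.2 κ := by
  have h1 : ∀ x : Cfg p n, nu2 R ρ σ x.1 x.2 κ = ∑ i, ∑ j, κ (x.1 i) (x.2 j) -
      nu R ρ x.1 (fun x => ∫ y in (-R)..R, κ x y * σ y) -
      nu R σ x.2 (fun y => ∫ x in (-R)..R, κ x y * ρ x) -
      ∫ y in (-R)..R, (∫ x in (-R)..R, κ x y * ρ x) * σ y := by
    intro x
    rw [sum_two (R := R) x.1 x.2 hρ hσ hκ]
    ring
  simp_rw [h1]
  refine Continuous.sub (Continuous.sub (Continuous.sub ?_ (nu_contX (cont_conv hκ hσ)))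
    (nu_contY (cont_conv' hκ hρ))) continuous_const
  refine continuous_finsetSum _ fun i _ => continuous_finsetSum _ fun j _ => ?_
  exact hκ.comp (by fun_prop : Continuous fun x : Cfg p n => (x.1 i, x.2 j))

end split

end NUR2
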