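import Pool.Agent.NUR2.Inst
import Pool.Agent.PLX.R2.Core2

/-!
# R2 with two densities: the theorem without continuity hypotheses on the kernels (copy of `NUR2/R2core`)
-/

set_option autoImplicit false

open MeasureTheory Set Filter Topology NUKer NUTr

namespace NUR2

variable {p n : ℕ} {R Λ l1 l2 S : ℝ} {ρ σ F' ψX ψX' ψY ψY' Us Uc aX aY EX EY χ : ℝ → ℝ}
  {qX qY qc kX kX' kY kY' kc kc' : ℝ → ℝ → ℝ}

lemma IX2_clk {x : ℝ} (hx : |x| ≤ R) :
    IX2 R ρ σ Us Uc (clk R kX) (clk R kc) x = IX2 R ρ σ Us Uc kX kc x := by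
  unfold IX2
  congr 1
  · refine integral_congr_ae ?_
    filter_upwards [mem_mW] with y hy
    rw [clk_eq hx hy]
  · refine integral_congr_ae ?_
    filter_upwards [mem_mW] with y hy
    rw [clk_eq hx hy]

lemma IY2_clk {y : ℝ} (hy : |y| ≤ R) :
    IY2 R ρ σ Us Uc (clk R kY) (clk R kc) y = IY2 R ρ σ Us Uc kY kc y := by
  unfold IY2
  congr 1
  · refine integral_congr_ae ?_
    filter_upwards [mem_mW] with z hz
    rw [clk_eq hy hz]
  · refine integral_congr_ae ?_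
    filter_upwards [mem_mW] with x hx
    rw [clk_eq hx hy]

/-- **R2** (proof/NU_ABS_4 [4.7]), two densities: lower bound of the exponential moment of the charge
statistics -/
theorem r2core2 (H : Hyp2 p n R Λ l1 l2 S ρ σ F' ψX ψX' ψY ψY' Us Uc aX aY EX EY χ qX qY qc kX kX' kY kY'
      kc kc') :
    ENNReal.ofReal ((mu (p := p) (n := n) R qX qY qc aX aY).real univ *
      Real.exp ((-2 * (∫ y, F' y * χ y ∂(mW R)) - TT (mW R) (fun x y => Us (x - y) - Uc (x - y)) F' F') +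
        ell2 (mu (p := p) (n := n) R qX qY qc aX aY) R ρ σ F' Us Uc EX EY χ -
        err Λ l1 l2 S (∫ y, |F' y| ∂(mW R)))) ≤
    ∫⁻ x, ENNReal.ofReal (Real.exp (∑ i, χ (x.1 i) - ∑ j, χ (x.2 j)))
      ∂(mu (p := p) (n := n) R qX qY qc aX aY) := by
  have hR := H.T.R0.le
  have HX := H.PX.kc.clamp hR
  have HX' := H.PX.kc'.clamp hR
  have HY := H.PY.kc.clamp hR
  have HY' := H.PY.kc'.clamp hR
  have Hc := H.Pc.kc.clamp hR
  have Hc' := H.Pc.kc'.clamp hR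
  have H' : Hyp2 p n R Λ l1 l2 S ρ σ F' ψX ψX' ψY ψY' Us Uc aX aY EX EY χ qX qY qc (clk R kX) (clk R kX')
      (clk R kY) (clk R kY') (clk R kc) (clk R kc') := by
    refine ⟨H.T, H.PX.clk hR H.T.bX H.T.bX, H.PY.clk hR H.T.bY H.T.bY, H.Pc.clk hR H.T.bX H.T.bY,
      fun x y _ _ => clk_symm hR H.sX x y, fun x y _ _ => clk_symm hR H.sX' x y,
      fun x y _ _ => clk_symm hR H.sY x y, fun x y _ _ => clk_symm hR H.sY' x y, ?_, ?_, H.cχ, H.χX, H.χY,
      H.fin, H.rig⟩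
    · refine ⟨H.OX.a0, H.OX.am, H.OX.cE, fun x hx => ?_, H.OX.small⟩
      rw [IX2_clk hx, IX2_clk ((H.T.bX x).2 hx), clk_eq hx hx, clk_eq hx hx]
      exact H.OX.rel x hx
    · refine ⟨H.OY.a0, H.OY.am, H.OY.cE, fun x hx => ?_, H.OY.small⟩
      rw [IY2_clk hx, IY2_clk ((H.T.bY x).2 hx), clk_eq hx hx, clk_eq hx hx]
      exact H.OY.rel x hx
  exact r2core0_2 H' HX.1 HX'.1 HY.1 HY'.1 Hc.1 Hc'.1 (clk_symm hR H.sX) (clk_symm hR H.sX')
    (clk_symm hR H.sY) (clk_symm hR H.sY')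

/-- the odd part is odd in the field -/
theorem ell2_neg (μ : Measure (Cfg p n)) (R : ℝ) (ρ σ F' Us Uc EX EY χ : ℝ → ℝ) :
    ell2 μ R ρ σ (fun x => - F' x) Us Uc EX EY (fun x => - χ x) = - ell2 μ R ρ σ F' Us Uc EX EY χ := by
  unfold ell2
  rw [Lf_neg]
  simp only [neg_mul, integral_neg, nu_neg]
  ring

end NUR2
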