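import Pool.Agent.NUDi.Num
import Pool.Agent.NUH0.SqS
import Pool.Agent.PLX.R2.R2core

/-!
# Expectations of the window gas, two densities (copies of `NUDi/Rig`, `NUDi/Sq`, `NUDi/Num`)

`ρ` is the density of the species `X`, `σ` of the species `Y`.
-/

set_option autoImplicit false

open MeasureTheory Set Filter Topology
open scoped ENNReal

namespace NUDi

open NUKer NUR2

variable {p n : ℕ} {R m c K : ℝ} {ρ σ : ℝ → ℝ} {g : Cfg p n → ℝ≥0∞} {B : ℝ≥0∞}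

/-- quadratic forms of two species, two densities -/
theorem rig_kc2 (hR : 0 ≤ R) (hρ : Continuous ρ) (hσ : Continuous σ) (hg : Measurable g)
    (hf : ∫⁻ x, (Bx R).indicator g x ≠ ∞) (hm : 0 ≤ m) {k k' : Bool}
    (h : MB volume ((Bx R).indicator g) R ρ (sp R p n k) m)
    (h' : MB volume ((Bx R).indicator g) R σ (sp R p n k') m) {F : Cfg p n → ℝ} {κ : ℝ → ℝ → ℝ}
    (he : ∀ x ∈ Bx (p := p) (n := n) R, F x = nu2 R ρ σ (sp R p n k x) (sp R p n k' x) κ) {Λ : ℝ}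
    (hK : KC R Λ (fun t t' => (κ t t' : ℂ))) :
    |∫ x, F x ∂(mWin R g)| ≤ (2 * m + 1) * Λ * (mWin R g).real Set.univ := by
  have hg' := hg.indicator (measurableSet_Bx (p := p) (n := n) R)
  have hΛ := hK.nonneg
  have h0 : 0 ≤ (mWin R g).real Set.univ := measureReal_nonneg
  have h1 := MB.kc' hg' hf (measurable_sp R k) (measurable_sp R k') hR (abs_sp hR k) (abs_sp hR k')
    hρ hσ hm h h' hK
  have h2 := abs_int_le (F := F) (K := 2 * m * Λ) hg hf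
    (measurable_nu2' (measurable_sp R k) (measurable_sp R k') hR (abs_sp hR k) (abs_sp hR k') hρ hσ
      hK) he (by positivity) h1
  refine h2.trans ?_
  gcongr
  linarith

/-- the bounds of the expectations (the fields of `Rig2`) -/
structure RigB2 (μ : Measure (Cfg p n)) (R : ℝ) (ρ σ : ℝ → ℝ) (S : ℝ) : Prop where
  linX : ∀ (f : ℝ → ℝ) (Λ : ℝ), KC R Λ (fun t _ => (f t : ℂ)) →
    |∫ x, nu R ρ x.1 f ∂μ| ≤ S * Λ * μ.real Set.univ
  linY : ∀ (f : ℝ → ℝ) (Λ : ℝ), KC R Λ (fun t _ => (f t : ℂ)) →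
    |∫ x, nu R σ x.2 f ∂μ| ≤ S * Λ * μ.real Set.univ
  XX : ∀ (κ : ℝ → ℝ → ℝ) (Λ : ℝ), KC R Λ (fun t t' => (κ t t' : ℂ)) →
    |∫ x, nu2 R ρ ρ x.1 x.1 κ ∂μ| ≤ S * Λ * μ.real Set.univ
  YY : ∀ (κ : ℝ → ℝ → ℝ) (Λ : ℝ), KC R Λ (fun t t' => (κ t t' : ℂ)) →
    |∫ x, nu2 R σ σ x.2 x.2 κ ∂μ| ≤ S * Λ * μ.real Set.univ
  XY : ∀ (κ : ℝ → ℝ → ℝ) (Λ : ℝ), KC R Λ (fun t t' => (κ t t' : ℂ)) →
    |∫ x, nu2 R ρ σ x.1 x.2 κ ∂μ| ≤ S * Λ * μ.real Set.univ

theorem rig_of_MB2 (hR : 0 ≤ R) (hρ : Continuous ρ) (hσ : Continuous σ) (hg : Measurable g)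
    (hf : ∫⁻ x, (Bx R).indicator g x ≠ ∞) (hm : 0 < m)
    (hX : MB volume ((Bx R).indicator g) R ρ (sp R p n true) m)
    (hY : MB volume ((Bx R).indicator g) R σ (sp R p n false) m) :
    RigB2 (mWin R g) R ρ σ (2 * m + 1) where
  linX _ _ hK := rig_lin hR hρ hg hf hm hX (fun x hx => by rw [sp_true hx]; rfl) hK
  linY _ _ hK := rig_lin hR hσ hg hf hm hY (fun x hx => by rw [sp_false hx]; rfl) hK
  XX _ _ hK := rig_kc2 hR hρ hρ hg hf hm.le hX hX (fun x hx => by rw [sp_true hx]; rfl) hK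
  YY _ _ hK := rig_kc2 hR hσ hσ hg hf hm.le hY hY (fun x hx => by rw [sp_false hx]; rfl) hK
  XY _ _ hK := rig_kc2 hR hρ hσ hg hf hm.le hX hY
    (fun x hx => by rw [sp_true hx, sp_false hx]; rfl) hK

theorem _root_.NUR2.rig_of_rigB2 {μ : Measure (Cfg p n)} {S : ℝ} (h : RigB2 μ R ρ σ S) :
    Rig2 μ R ρ σ S where
  X := fun f Λ _ hf => h.linX f Λ hf
  Y := fun f Λ _ hf => h.linY f Λ hf
  XX := fun κ Λ _ hκ => h.XX κ Λ hκ
  YY := fun κ Λ _ hκ => h.YY κ Λ hκ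
  XY := fun κ Λ _ hκ => h.XY κ Λ hκ

theorem RigB2.mono {μ : Measure (Cfg p n)} {S S' : ℝ}
    (h : RigB2 μ R ρ σ S) (hS : S ≤ S') : RigB2 μ R ρ σ S' := by
  have go : ∀ (I Λ : ℝ), 0 ≤ Λ → |I| ≤ S * Λ * μ.real Set.univ → |I| ≤ S' * Λ * μ.real Set.univ := by
    intro I Λ hΛ h1
    have h0 : 0 ≤ μ.real Set.univ := measureReal_nonneg
    exact h1.trans (by gcongr)
  exact ⟨fun f Λ hK => go _ _ hK.nonneg (h.linX f Λ hK), fun f Λ hK => go _ _ hK.nonneg (h.linY f Λ hK),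
    fun f Λ hK => go _ _ hK.nonneg (h.XX f Λ hK), fun f Λ hK => go _ _ hK.nonneg (h.YY f Λ hK),
    fun f Λ hK => go _ _ hK.nonneg (h.XY f Λ hK)⟩

/-- exponential squares of all the modes of both species, on the window -/
structure SqW2 (g : Cfg p n → ℝ≥0∞) (R : ℝ) (ρ σ : ℝ → ℝ) (B : ℝ≥0∞) (c K : ℝ) : Prop where
  cosX : ∀ a : ℝ, ∫⁻ x in Bx R, g x * ENNReal.ofReal (Real.exp (c / (1 + |a|) *
    (nu R ρ x.1 fun t => Real.cos (a * t)) ^ 2)) ≤ B * ENNReal.ofReal (Real.exp K)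
  sinX : ∀ a : ℝ, ∫⁻ x in Bx R, g x * ENNReal.ofReal (Real.exp (c / (1 + |a|) *
    (nu R ρ x.1 fun t => Real.sin (a * t)) ^ 2)) ≤ B * ENNReal.ofReal (Real.exp K)
  cosY : ∀ a : ℝ, ∫⁻ x in Bx R, g x * ENNReal.ofReal (Real.exp (c / (1 + |a|) *
    (nu R σ x.2 fun t => Real.cos (a * t)) ^ 2)) ≤ B * ENNReal.ofReal (Real.exp K)
  sinY : ∀ a : ℝ, ∫⁻ x in Bx R, g x * ENNReal.ofReal (Real.exp (c / (1 + |a|) *
    (nu R σ x.2 fun t => Real.sin (a * t)) ^ 2)) ≤ B * ENNReal.ofReal (Real.exp K)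

theorem SqW2.mass (hc : 0 ≤ c) (h : SqW2 g R ρ σ B c K) :
    ∫⁻ x in Bx R, g x ≤ B * ENNReal.ofReal (Real.exp K) := by
  refine le_trans (lintegral_mono fun x => ?_) (h.cosX 0)
  calc g x = g x * ENNReal.ofReal 1 := by simp
    _ ≤ _ := by
      gcongr
      exact Real.one_le_exp (by positivity)

/-- majorant -/
theorem SqW2.mono {g' : Cfg p n → ℝ≥0∞} {B' : ℝ≥0∞} (h : SqW2 g R ρ σ B c K)
    (hg : ∀ x ∈ Bx (p := p) (n := n) R, g' x ≤ g x) (hB : B ≤ B') : SqW2 g' R ρ σ B' c K := by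
  have go : ∀ F : Cfg p n → ℝ≥0∞, ∫⁻ x in Bx R, g x * F x ≤ B * ENNReal.ofReal (Real.exp K) →
      ∫⁻ x in Bx R, g' x * F x ≤ B' * ENNReal.ofReal (Real.exp K) := by
    intro F hF
    refine le_trans (setLIntegral_mono' (measurableSet_Bx R) fun x hx => ?_) (hF.trans (by gcongr))
    have := hg x hx
    gcongr
  exact ⟨fun a => go _ (h.cosX a), fun a => go _ (h.sinX a), fun a => go _ (h.cosY a),
    fun a => go _ (h.sinY a)⟩

theorem SqW2.monoC {c' K' : ℝ} (h : SqW2 g R ρ σ B c K) (hc : c' ≤ c) (hK : K ≤ K') :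
    SqW2 g R ρ σ B c' K' := by
  have go : ∀ (F : Cfg p n → ℝ) (a : ℝ), ∫⁻ x in Bx R, g x * ENNReal.ofReal (Real.exp (c / (1 + |a|) * F x ^ 2)) ≤
      B * ENNReal.ofReal (Real.exp K) →
      ∫⁻ x in Bx R, g x * ENNReal.ofReal (Real.exp (c' / (1 + |a|) * F x ^ 2)) ≤
        B * ENNReal.ofReal (Real.exp K') := by
    intro F a hF
    refine le_trans (lintegral_mono fun x => ?_) (hF.trans (by gcongr))
    gcongr
  exact ⟨fun a => go _ a (h.cosX a), fun a => go _ a (h.sinX a), fun a => go _ a (h.cosY a),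
    fun a => go _ a (h.sinY a)⟩

theorem SqW2.smul (h : SqW2 g R ρ σ B c K) {w : ℝ≥0∞} (hw : w ≠ ∞) :
    SqW2 (fun x => w * g x) R ρ σ (w * B) c K := by
  have go : ∀ F : Cfg p n → ℝ≥0∞, ∫⁻ x in Bx R, g x * F x ≤ B * ENNReal.ofReal (Real.exp K) →
      ∫⁻ x in Bx R, w * g x * F x ≤ w * B * ENNReal.ofReal (Real.exp K) := by
    intro F hF
    simp_rw [mul_assoc]
    rw [lintegral_const_mul' _ _ hw]
    gcongr
  exact ⟨fun a => go _ (h.cosX a), fun a => go _ (h.sinX a), fun a => go _ (h.cosY a),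
    fun a => go _ (h.sinY a)⟩

/-- sum over the shells -/
theorem SqW2.tsum {gj : ℕ → Cfg p n → ℝ≥0∞} {Bj : ℕ → ℝ≥0∞} (hm : ∀ j, Measurable (gj j))
    (h : ∀ j, SqW2 (gj j) R ρ σ (Bj j) c K) :
    SqW2 (fun x => ∑' j, gj j x) R ρ σ (∑' j, Bj j) c K := by
  have go : ∀ F : Cfg p n → ℝ≥0∞, Measurable F →
      (∀ j, ∫⁻ x in Bx R, gj j x * F x ≤ Bj j * ENNReal.ofReal (Real.exp K)) →
      ∫⁻ x in Bx R, (∑' j, gj j x) * F x ≤ (∑' j, Bj j) * ENNReal.ofReal (Real.exp K) := by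
    intro F hF hj
    have hm' : ∀ j, Measurable fun x => gj j x * F x := fun j => (hm j).mul hF
    simp_rw [← ENNReal.tsum_mul_right]
    rw [lintegral_tsum fun j => (hm' j).aemeasurable]
    exact ENNReal.tsum_le_tsum hj
  have mX : ∀ (a : ℝ) (f : ℝ → ℝ), Continuous f → Measurable fun x : Cfg p n =>
      ENNReal.ofReal (Real.exp (c / (1 + |a|) * (nu R ρ x.1 f) ^ 2)) := by
    intro a f hf
    have := meas_modeX (p := p) (n := n) (R := R) (ρ := ρ) f hf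
    fun_prop
  have mY : ∀ (a : ℝ) (f : ℝ → ℝ), Continuous f → Measurable fun x : Cfg p n =>
      ENNReal.ofReal (Real.exp (c / (1 + |a|) * (nu R σ x.2 f) ^ 2)) := by
    intro a f hf
    have := meas_modeY (p := p) (n := n) (R := R) (ρ := σ) f hf
    fun_prop
  exact ⟨fun a => go _ (mX a _ (by fun_prop)) fun j => (h j).cosX a,
    fun a => go _ (mX a _ (by fun_prop)) fun j => (h j).sinX a,
    fun a => go _ (mY a _ (by fun_prop)) fun j => (h j).cosY a,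
    fun a => go _ (mY a _ (by fun_prop)) fun j => (h j).sinY a⟩

/-- finitely many shells -/
theorem SqW2.sum {J : ℕ} {gj : ℕ → Cfg p n → ℝ≥0∞} {Bj : ℕ → ℝ≥0∞} (hm : ∀ j, Measurable (gj j))
    (h : ∀ j < J, SqW2 (gj j) R ρ σ (Bj j) c K) :
    SqW2 (fun x => ∑ j ∈ Finset.range J, gj j x) R ρ σ (∑ j ∈ Finset.range J, Bj j) c K := by
  have go : ∀ F : Cfg p n → ℝ≥0∞, Measurable F →
      (∀ j < J, ∫⁻ x in Bx R, gj j x * F x ≤ Bj j * ENNReal.ofReal (Real.exp K)) →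
      ∫⁻ x in Bx R, (∑ j ∈ Finset.range J, gj j x) * F x ≤
        (∑ j ∈ Finset.range J, Bj j) * ENNReal.ofReal (Real.exp K) := by
    intro F hF hj
    have hm' : ∀ j, Measurable fun x => gj j x * F x := fun j => (hm j).mul hF
    simp_rw [Finset.sum_mul]
    rw [lintegral_finsetSum _ fun j _ => hm' j]
    exact Finset.sum_le_sum fun j hj' => hj j (Finset.mem_range.1 hj')
  have mX : ∀ (a : ℝ) (f : ℝ → ℝ), Continuous f → Measurable fun x : Cfg p n =>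
      ENNReal.ofReal (Real.exp (c / (1 + |a|) * (nu R ρ x.1 f) ^ 2)) := by
    intro a f hf
    have := meas_modeX (p := p) (n := n) (R := R) (ρ := ρ) f hf
    fun_prop
  have mY : ∀ (a : ℝ) (f : ℝ → ℝ), Continuous f → Measurable fun x : Cfg p n =>
      ENNReal.ofReal (Real.exp (c / (1 + |a|) * (nu R σ x.2 f) ^ 2)) := by
    intro a f hf
    have := meas_modeY (p := p) (n := n) (R := R) (ρ := σ) f hf
    fun_prop
  exact ⟨fun a => go _ (mX a _ (by fun_prop)) fun j hj => (h j hj).cosX a,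
    fun a => go _ (mX a _ (by fun_prop)) fun j hj => (h j hj).sinX a,
    fun a => go _ (mY a _ (by fun_prop)) fun j hj => (h j hj).cosY a,
    fun a => go _ (mY a _ (by fun_prop)) fun j hj => (h j hj).sinY a⟩

/-- two species, clamped kernels, one more square; `r k` the density of the species `k` -/
theorem crudeSq_two2 (hR : 0 ≤ R) {r : Bool → ℝ → ℝ} (hρ : ∀ k, Continuous (r k))
    {WX : (Fin p → ℝ) → ℝ≥0∞}
    {WY : (Fin n → ℝ) → ℝ≥0∞} (hX : Measurable WX) (hY : Measurable WY) {BX BY : ℝ≥0∞}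
    {κ : Bool → Bool → ℝ → ℝ → ℝ} {Λ : Bool → Bool → ℝ} {Λ0 q0 M : ℝ}
    (hK : ∀ k k', KC R (Λ k k') (fun t t' => (κ k k' t t' : ℂ))) (hΛ0 : 0 < Λ0)
    (hΛ : ∑ k, ∑ k', Λ k k' ≤ Λ0) (hq0 : 0 ≤ q0) (hM : 0 ≤ M) {c : ℝ} (hc : 2 * Λ0 ≤ c)
    (hcq : 8 * c * q0 ≤ 1)
    (hWX : OneB R (r true) WX BX q0 M) (hWY : OneB R (r false) WY BY q0 M) (k : Bool) (a : ℝ) :
    ∫⁻ x : Cfg p n, WX x.1 * WY x.2 * ENNReal.ofReal (Real.exp (QF R r κ
        (sp R p n) x + c / (1 + |a|) * (nu R (r k) (sp R p n k x) fun t => Real.cos (a * t)) ^ 2)) ≤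
        BX * BY * ENNReal.ofReal (Real.sqrt 2 * Real.exp (4 * c * q0 * M)) ∧
    ∫⁻ x : Cfg p n, WX x.1 * WY x.2 * ENNReal.ofReal (Real.exp (QF R r κ
        (sp R p n) x + c / (1 + |a|) * (nu R (r k) (sp R p n k x) fun t => Real.sin (a * t)) ^ 2)) ≤
        BX * BY * ENNReal.ofReal (Real.sqrt 2 * Real.exp (4 * c * q0 * M)) := by
  have h := crude_sq (μ := (volume : Measure (Cfg p n))) (κ := fun k k' t t' => κ k k' (cl R t) (cl R t'))
    (ρ := r)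
    (W := fun ω : Cfg p n => WX ω.1 * WY ω.2) (by fun_prop) (measurable_sp R) hR
    (abs_sp hR) hρ (fun k k' => ((hK k k').clamp hR).1)
    (fun k k' => ((hK k k').clamp hR).2) hΛ0 hΛ hq0 hM hc hcq
    (two_exp_b (ρ := r) hX hY hWX hWY) k a
  have e : ∀ x : Cfg p n, QF R r (fun k k' t t' => κ k k' (cl R t) (cl R t'))
      (sp R p n) x = QF R r κ (sp R p n) x := fun x =>
    QF_clamp hR (abs_sp hR) r κ x
  simp only [e] at h
  exact h

/-- one shell: from the one component bounds and small kernels; `r k` the density of the species `k` -/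
theorem SqW2.of_one (hR : 0 ≤ R) {r : Bool → ℝ → ℝ} (hρ : ∀ k, Continuous (r k))
    {WX : (Fin p → ℝ) → ℝ≥0∞}
    {WY : (Fin n → ℝ) → ℝ≥0∞} (hX : Measurable WX) (hY : Measurable WY) {BX BY : ℝ≥0∞}
    {κ : Bool → Bool → ℝ → ℝ → ℝ} {Λ : Bool → Bool → ℝ} {Λ0 q0 M : ℝ}
    (hK : ∀ k k', KC R (Λ k k') (fun t t' => (κ k k' t t' : ℂ))) (hΛ0 : 0 < Λ0)
    (hΛ : ∑ k, ∑ k', Λ k k' ≤ Λ0) (hq0 : 0 < q0) (hM : 0 ≤ M) (hq : 16 * Λ0 * q0 ≤ 1)
    (hWX : OneB R (r true) WX BX q0 M) (hWY : OneB R (r false) WY BY q0 M)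
    (hle : ∀ x ∈ Bx (p := p) (n := n) R, g x ≤ WX x.1 * WY x.2 *
      ENNReal.ofReal (Real.exp (∑ k, ∑ k', nu2 R (r k) (r k') (sp R p n k x) (sp R p n k' x) (κ k k')))) :
    SqW2 g R (r true) (r false) (BX * BY) (1 / (8 * q0)) (1 + M) := by
  obtain ⟨c, hc⟩ : ∃ c : ℝ, c = 1 / (8 * q0) := ⟨_, rfl⟩
  have hc0 : 0 < c := by rw [hc]; positivity
  have hcq : 8 * c * q0 = 1 := by rw [hc]; field_simp
  have hcΛ : 2 * Λ0 ≤ c := by
    rw [hc, le_div_iff₀ (by positivity)]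
    linarith
  have hs2 : Real.sqrt 2 ≤ Real.exp (1 / 2) := by
    have h1 : Real.sqrt 2 ≤ 3 / 2 := by
      rw [Real.sqrt_le_left (by norm_num)]
      norm_num
    have h2 := Real.add_one_le_exp (1 / 2)
    linarith
  have hK2 : Real.sqrt 2 * Real.exp (4 * c * q0 * M) ≤ Real.exp (1 + M) := by
    have e : 4 * c * q0 * M = M / 2 := by
      rw [show 4 * c * q0 * M = (8 * c * q0) * M / 2 by ring, hcq]
      ring
    rw [e]
    calc Real.sqrt 2 * Real.exp (M / 2) ≤ Real.exp (1 / 2) * Real.exp (M / 2) := by gcongr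
      _ = Real.exp (1 / 2 + M / 2) := (Real.exp_add _ _).symm
      _ ≤ _ := Real.exp_le_exp.2 (by linarith)
  have hcs := crudeSq_two2 (p := p) (n := n) hR hρ hX hY hK hΛ0 hΛ hq0.le hM hcΛ hcq.le hWX hWY
  rw [← hc]
  have go : ∀ (k : Bool) (f : ℝ → ℝ) (N : Cfg p n → ℝ) (a : ℝ),
      (∀ x ∈ Bx (p := p) (n := n) R, N x = nu R (r k) (sp R p n k x) f) →
      ∫⁻ x : Cfg p n, WX x.1 * WY x.2 * ENNReal.ofReal (Real.exp (QF R r κ
        (sp R p n) x + c / (1 + |a|) * (nu R (r k) (sp R p n k x) f) ^ 2)) ≤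
        BX * BY * ENNReal.ofReal (Real.sqrt 2 * Real.exp (4 * c * q0 * M)) →
      ∫⁻ x in Bx R, g x * ENNReal.ofReal (Real.exp (c / (1 + |a|) * N x ^ 2)) ≤
        BX * BY * ENNReal.ofReal (Real.exp (1 + M)) := by
    intro k f N a hN h
    refine le_trans ?_ (h.trans (by gcongr))
    refine (setLIntegral_mono' (measurableSet_Bx R) fun x hx => ?_).trans
      (setLIntegral_le_lintegral _ _)
    rw [hN x hx, Real.exp_add, ENNReal.ofReal_mul (Real.exp_pos _).le, ← mul_assoc]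
    exact mul_le_mul_left (hle x hx) _
  refine ⟨fun a => go true _ _ a (fun x hx => by rw [sp_true hx]; rfl) (hcs true a).1,
    fun a => go true _ _ a (fun x hx => by rw [sp_true hx]; rfl) (hcs true a).2,
    fun a => go false _ _ a (fun x hx => by rw [sp_false hx]; rfl) (hcs false a).1,
    fun a => go false _ _ a (fun x hx => by rw [sp_false hx]; rfl) (hcs false a).2⟩

/-- **the expectations** from exponential squares and a lower bound of the total weight -/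
theorem rig_of_sq2 (hR : 0 ≤ R) (hρ : Continuous ρ) (hσ : Continuous σ) (hg : Measurable g) (hc : 0 < c)
    (hB : B ≠ ∞)
    (h : SqW2 g R ρ σ B c K) {A : ℝ} (hA : 0 < A + K)
    (hlow : B * ENNReal.ofReal (Real.exp (-A)) ≤ mWin R g Set.univ) :
    IsFiniteMeasure (mWin R g) ∧ RigB2 (mWin R g) R ρ σ (2 * ((A + K) / c) + 1) := by
  have hms := measurableSet_Bx (p := p) (n := n) R
  have hg' := hg.indicator hms
  have e0 : ∀ F : Cfg p n → ℝ≥0∞, ∫⁻ x, (Bx R).indicator g x * F x = ∫⁻ x in Bx R, g x * F x := by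
    intro F
    rw [← lintegral_indicator hms]
    refine lintegral_congr fun x => ?_
    by_cases hx : x ∈ Bx (p := p) (n := n) R
    · rw [indicator_of_mem hx, indicator_of_mem hx]
    · rw [indicator_of_notMem hx, indicator_of_notMem hx, zero_mul]
  rw [mWin_univ] at hlow
  have e1 : ∫⁻ x, (Bx R).indicator g x = ∫⁻ x in Bx R, g x := lintegral_indicator hms _
  have hfin : ∫⁻ x, (Bx R).indicator g x ≠ ∞ := by
    rw [e1]
    exact ne_top_of_le_ne_top (ENNReal.mul_ne_top hB ENNReal.ofReal_ne_top) (h.mass hc.le)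
  have go : ∀ (k : Bool) (r : ℝ → ℝ) (f : ℝ → ℝ) (N : Cfg p n → ℝ) (a : ℝ), Continuous f →
      (∀ x ∈ Bx (p := p) (n := n) R, N x = nu R r (sp R p n k x) f) →
      ∫⁻ x in Bx R, g x * ENNReal.ofReal (Real.exp (c / (1 + |a|) * N x ^ 2)) ≤
        B * ENNReal.ofReal (Real.exp K) →
      ∫⁻ x, (Bx R).indicator g x * ENNReal.ofReal ((nu R r (sp R p n k x) f) ^ 2) ≤
        ENNReal.ofReal ((A + K) / c * (1 + |a|)) * ∫⁻ x, (Bx R).indicator g x := by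
    intro k r f N a hf hN h1
    refine sq_moment (B := B) hg' (N := fun x => nu R r (sp R p n k x) f)
      (measurable_nu (measurable_sp R k) hf) (α := 1 + |a|) (c := c) (A := A)
      (K := K) (by positivity) hc hA.le hB ?_ hlow
    rw [e0]
    refine le_trans (le_of_eq ?_) h1
    refine setLIntegral_congr_fun hms fun x hx => ?_
    rw [hN x hx]
  have h2 : MB volume ((Bx R).indicator g) R σ (sp R p n false) ((A + K) / c) :=
    ⟨fun a => go false σ _ _ a (by fun_prop) (fun x hx => by rw [sp_false hx]; rfl) (h.cosY a),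
      fun a => go false σ _ _ a (by fun_prop) (fun x hx => by rw [sp_false hx]; rfl) (h.sinY a)⟩
  have h3 : MB volume ((Bx R).indicator g) R ρ (sp R p n true) ((A + K) / c) :=
    ⟨fun a => go true ρ _ _ a (by fun_prop) (fun x hx => by rw [sp_true hx]; rfl) (h.cosX a),
      fun a => go true ρ _ _ a (by fun_prop) (fun x hx => by rw [sp_true hx]; rfl) (h.sinX a)⟩
  refine ⟨?_, rig_of_MB2 hR hρ hσ hg hfin (by positivity) h3 h2⟩
  constructor
  rw [mWin_univ]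
  exact lt_top_iff_ne_top.2 hfin

/-- **the dichotomy with the numbers** -/
theorem dicho_rig2 {C₁ C₂ C₃ : ℝ} (h1 : 0 < C₁) (h2 : 0 ≤ C₂) (h3 : 0 ≤ C₃) : ∃ C₄ : ℝ, 1 ≤ C₄ ∧
    ∀ m : ℕ, 3 ≤ m → ∀ R : ℝ, 0 ≤ R → R ≤ 2 * Real.log m ^ 2 → ∀ {p n : ℕ} {g : Cfg p n → ℝ≥0∞},
      Measurable g → ∀ {ρ σ : ℝ → ℝ}, Continuous ρ → Continuous σ → ∀ A a M : ℝ, 0 ≤ A → 0 ≤ M →
      M ≤ C₂ * Real.log m ^ 6 →
      SqW2 g R ρ σ (ENNReal.ofReal (A * (m : ℝ) ^ a * Real.exp C₃)) (1 / (8 * (C₁ * (R + 1)))) (1 + M) →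
      mWin R g Set.univ ≤ ENNReal.ofReal (A * (m : ℝ) ^ (a - 1 / 2)) ∨
        (IsFiniteMeasure (mWin R g) ∧ RigB2 (mWin R g) R ρ σ (C₄ * Real.log m ^ 8)) := by
  refine ⟨1 + 48 * C₁ * (C₂ + C₃ + 2), by nlinarith [mul_nonneg h1.le (by linarith : 0 ≤ C₂ + C₃ + 2)],
    ?_⟩
  intro m hm R hR hR2 p n g hg ρ σ hρ hσ A a M hA hM hM2 hsq
  have hL := one_le_log hm
  obtain ⟨L, hLe⟩ : ∃ L, L = Real.log m := ⟨_, rfl⟩
  rw [← hLe] at hL hR2 hM2 ⊢
  have hm0 : (0 : ℝ) < m := by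
    have : 0 < m := by omega
    exact_mod_cast this
  rcases le_or_gt (mWin R g Set.univ) (ENNReal.ofReal (A * (m : ℝ) ^ (a - 1 / 2))) with h | h
  · exact Or.inl h
  · right
    have hlow : ENNReal.ofReal (A * (m : ℝ) ^ a * Real.exp C₃) *
        ENNReal.ofReal (Real.exp (-(L / 2 + C₃))) ≤ mWin R g Set.univ := by
      refine le_trans (le_of_eq ?_) h.le
      rw [← ENNReal.ofReal_mul (by positivity)]
      congr 1
      have e1 : (m : ℝ) ^ (a - 1 / 2) = (m : ℝ) ^ a * Real.exp (-(L / 2)) := by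
        rw [Real.rpow_sub hm0, hLe, Real.exp_neg, div_eq_mul_inv]
        congr 2
        rw [Real.rpow_def_of_pos hm0]
        congr 1
        ring
      rw [e1, mul_assoc, mul_assoc]
      congr 2
      rw [← Real.exp_add]
      congr 1
      ring
    have hc0 : 0 < 1 / (8 * (C₁ * (R + 1))) := by positivity
    obtain ⟨f1, f2⟩ := rig_of_sq2 hR hρ hσ hg hc0 ENNReal.ofReal_ne_top hsq (A := L / 2 + C₃)
      (by positivity) hlow
    refine ⟨f1, f2.mono ?_⟩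
    have e2 : 2 * ((L / 2 + C₃ + (1 + M)) / (1 / (8 * (C₁ * (R + 1))))) + 1 =
        16 * C₁ * (R + 1) * (L / 2 + C₃ + 1 + M) + 1 := by
      field_simp
      ring
    rw [e2]
    have hL2 : 1 ≤ L ^ 2 := one_le_pow₀ hL
    have hL6 : 1 ≤ L ^ 6 := one_le_pow₀ hL
    have hL8 : 1 ≤ L ^ 8 := one_le_pow₀ hL
    have h4 : R + 1 ≤ 3 * L ^ 2 := by linarith
    have h5 : L ≤ L ^ 6 := by
      calc L = L ^ 1 := (pow_one L).symm
        _ ≤ L ^ 6 := pow_le_pow_right₀ hL (by norm_num)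
    have h6 : L / 2 + C₃ + 1 + M ≤ (C₂ + C₃ + 2) * L ^ 6 := by nlinarith
    have h7 : 0 ≤ L / 2 + C₃ + 1 + M := by positivity
    calc 16 * C₁ * (R + 1) * (L / 2 + C₃ + 1 + M) + 1 ≤
        16 * C₁ * (3 * L ^ 2) * ((C₂ + C₃ + 2) * L ^ 6) + 1 * L ^ 8 := by
          gcongr
          linarith
      _ = (1 + 48 * C₁ * (C₂ + C₃ + 2)) * L ^ 8 := by ring

end NUDi
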