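import Pool.Agent.NUH0.Dich
import Pool.Agent.PLX.R2.Di

/-!
# Exponential squares of the cut modes, two densities (copies of `NUH0/SqS`, `NUH0/Dich`)

`ρ` is the density of the species `X`, `σ` of the species `Y`.
-/

set_option autoImplicit false

open MeasureTheory Set Filter Topology
open scoped ENNReal

namespace NUH0

open NUKer NUDi NUR2

noncomputable section

variable {p n : ℕ}

/-- exponential squares of the cut modes on the window `[-T, T]` -/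
structure SqC2 (W : Cfg p n → ℝ) (T : ℝ) (bb ρ σ : ℝ → ℝ) (A c : ℝ) : Prop where
  cosX : ∀ a : ℝ, ∫⁻ x in NU42.Bw p n T, ENNReal.ofReal (W x * Real.exp (c / (1 + |a|) *
    (nuF ρ x.1 fun t => bb t * Real.cos (a * t)) ^ 2)) ≤ ENNReal.ofReal A
  sinX : ∀ a : ℝ, ∫⁻ x in NU42.Bw p n T, ENNReal.ofReal (W x * Real.exp (c / (1 + |a|) *
    (nuF ρ x.1 fun t => bb t * Real.sin (a * t)) ^ 2)) ≤ ENNReal.ofReal A
  cosY : ∀ a : ℝ, ∫⁻ x in NU42.Bw p n T, ENNReal.ofReal (W x * Real.exp (c / (1 + |a|) *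
    (nuF σ x.2 fun t => bb t * Real.cos (a * t)) ^ 2)) ≤ ENNReal.ofReal A
  sinY : ∀ a : ℝ, ∫⁻ x in NU42.Bw p n T, ENNReal.ofReal (W x * Real.exp (c / (1 + |a|) *
    (nuF σ x.2 fun t => bb t * Real.sin (a * t)) ^ 2)) ≤ ENNReal.ofReal A

/-- **sum over the shells**: exponential squares of the window statistics for the weight with the
true cutoff -/
theorem sqW_shells2 {DX DX1 DY DY1 : ℝ → ℂ} (m1 : Measurable DX) (m2 : Measurable DX1)
    (m3 : Measurable DY) (m4 : Measurable DY1) {a a' : ℝ → ℝ} (ma : Measurable a)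
    (ma' : Measurable a') (ha : ∀ t, 0 ≤ a t) (ha' : ∀ t, 0 ≤ a' t)
    {cf B : ℝ → ℝ} (hB : Measurable B) {D q g A T0 R : ℝ} (hD : 0 ≤ D) (hA : 0 ≤ A) (hq : 0 < q)
    (hg : g < q) (hg0 : 0 ≤ g) (hB0 : ∀ t, 0 ≤ B t) (h0 : ∀ t, 0 ≤ cf t)
    (h1 : ∀ t, cf t ≤ Real.exp (B t)) (h2 : ∀ t, cf t ≤ D * Real.exp (-q * |t|)) (hTR : T0 ≤ R)
    (hR : 0 ≤ R) {bb ρ σ : ℝ → ℝ} (hbc : Continuous bb) (hb1 : ∀ t, |t| ≤ R → bb t = 1)
    (hbl : ∀ t, |bb t| ≤ 1) (hρ : Integrable ρ) (hσ : Integrable σ) {τ : ℝ}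
    (hτ : ∫ t in {t | R < |t|}, |ρ t| ≤ τ) (hτ' : ∫ t in {t | R < |t|}, |σ t| ≤ τ)
    {c K : ℝ} (hc : 0 ≤ c)
    (hw : ∀ T, T0 ≤ T → T ≤ R → SqC2 (p := p) (n := n) (fun x => NU42.WO DX DX1 DY DY1
      (fun t => a t * Real.exp (B t)) (fun t => a' t * Real.exp (B t)) x.1 x.2) T bb ρ σ
        (A * Real.exp K * Real.exp (g * (T - T0))) c) :
    SqW2 (p := p) (n := n) (fun x => ENNReal.ofReal (NU42.WO DX DX1 DY DY1 (fun t => a t * cf t)
      (fun t => a' t * cf t) x.1 x.2)) R ρ σ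
      (ENNReal.ofReal (A * (1 + D * Real.exp (-q * T0) * Real.exp g / (1 - Real.exp (-(q - g))))))
      (c / 2) (K + c * τ ^ 2) := by
  have hr1 : Real.exp (-(q - g)) < 1 := by
    rw [Real.exp_lt_one_iff]; linarith
  have h6 : 0 < 1 - Real.exp (-(q - g)) := by linarith
  have e0 : ENNReal.ofReal (A * Real.exp K * Real.exp (c / 2 * (2 * τ ^ 2)) *
        (1 + D * Real.exp (-q * T0) * Real.exp g / (1 - Real.exp (-(q - g))))) =
      ENNReal.ofReal (A * (1 + D * Real.exp (-q * T0) * Real.exp g / (1 - Real.exp (-(q - g))))) *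
        ENNReal.ofReal (Real.exp (K + c * τ ^ 2)) := by
    rw [← ENNReal.ofReal_mul (by positivity), Real.exp_add]
    congr 1
    rw [show c / 2 * (2 * τ ^ 2) = c * τ ^ 2 by ring]
    ring
  have go1 : ∀ (f : ℝ → ℝ), Continuous f → (∀ t, |f t| ≤ 1) → ∀ al : ℝ,
      (∀ T, T0 ≤ T → T ≤ R → ∫⁻ x in NU42.Bw p n T, ENNReal.ofReal (NU42.WO DX DX1 DY DY1
      (fun t => a t * Real.exp (B t)) (fun t => a' t * Real.exp (B t)) x.1 x.2 *
        Real.exp (c / (1 + |al|) * (nuF ρ x.1 fun t => bb t * f t) ^ 2)) ≤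
        ENNReal.ofReal (A * Real.exp K * Real.exp (g * (T - T0)))) →
      ∫⁻ x in Bx (p := p) (n := n) R, ENNReal.ofReal (NU42.WO DX DX1 DY DY1 (fun t => a t * cf t)
        (fun t => a' t * cf t) x.1 x.2) *
          ENNReal.ofReal (Real.exp (c / 2 / (1 + |al|) * (nu R ρ x.1 f) ^ 2)) ≤
      ENNReal.ofReal (A * (1 + D * Real.exp (-q * T0) * Real.exp g / (1 - Real.exp (-(q - g))))) *
        ENNReal.ofReal (Real.exp (K + c * τ ^ 2)) := by
    intro f hf hf1 al h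
    have := shell_mode (p := p) (n := n) m1 m2 m3 m4 ma ma' ha ha' hB hD
      (A := A * Real.exp K) (by positivity) hq hg hg0 hB0 h0 h1 h2 hTR
      (N := fun x => nu R ρ x.1 f) (F := fun x => nuF ρ x.1 fun t => bb t * f t)
      (meas_modeX f hf) (K0 := 2 * τ ^ 2) (by positivity)
      (fun x hx => nu_sq_le hR hbc hb1 hbl hρ hτ hf hf1 x.1 hx.1) hc (α := 1 + |al|)
      (by linarith [abs_nonneg al]) h
    rw [e0] at this
    exact this
  have go2 : ∀ (f : ℝ → ℝ), Continuous f → (∀ t, |f t| ≤ 1) → ∀ al : ℝ,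
      (∀ T, T0 ≤ T → T ≤ R → ∫⁻ x in NU42.Bw p n T, ENNReal.ofReal (NU42.WO DX DX1 DY DY1
      (fun t => a t * Real.exp (B t)) (fun t => a' t * Real.exp (B t)) x.1 x.2 *
        Real.exp (c / (1 + |al|) * (nuF σ x.2 fun t => bb t * f t) ^ 2)) ≤
        ENNReal.ofReal (A * Real.exp K * Real.exp (g * (T - T0)))) →
      ∫⁻ x in Bx (p := p) (n := n) R, ENNReal.ofReal (NU42.WO DX DX1 DY DY1 (fun t => a t * cf t)
        (fun t => a' t * cf t) x.1 x.2) *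
          ENNReal.ofReal (Real.exp (c / 2 / (1 + |al|) * (nu R σ x.2 f) ^ 2)) ≤
      ENNReal.ofReal (A * (1 + D * Real.exp (-q * T0) * Real.exp g / (1 - Real.exp (-(q - g))))) *
        ENNReal.ofReal (Real.exp (K + c * τ ^ 2)) := by
    intro f hf hf1 al h
    have := shell_mode (p := p) (n := n) m1 m2 m3 m4 ma ma' ha ha' hB hD
      (A := A * Real.exp K) (by positivity) hq hg hg0 hB0 h0 h1 h2 hTR
      (N := fun x => nu R σ x.2 f) (F := fun x => nuF σ x.2 fun t => bb t * f t)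
      (meas_modeY f hf) (K0 := 2 * τ ^ 2) (by positivity)
      (fun x hx => nu_sq_le hR hbc hb1 hbl hσ hτ' hf hf1 x.2 hx.2) hc (α := 1 + |al|)
      (by linarith [abs_nonneg al]) h
    rw [e0] at this
    exact this
  exact ⟨fun al => go1 _ (by fun_prop) (fun t => Real.abs_cos_le_one _) al
      fun T a1 a2 => (hw T a1 a2).cosX al,
    fun al => go1 _ (by fun_prop) (fun t => Real.abs_sin_le_one _) al
      fun T a1 a2 => (hw T a1 a2).sinX al,
    fun al => go2 _ (by fun_prop) (fun t => Real.abs_cos_le_one _) al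
      fun T a1 a2 => (hw T a1 a2).cosY al,
    fun al => go2 _ (by fun_prop) (fun t => Real.abs_sin_le_one _) al
      fun T a1 a2 => (hw T a1 a2).sinY al⟩

/-- `SqC2` from the form of `win_sq`; `r k` is the density of the species `k` -/
theorem SqC2.of_win {W : Cfg p n → ℝ} (hW : ∀ x, 0 ≤ W x) {T : ℝ} {bb : ℝ → ℝ} {r : Bool → ℝ → ℝ}
    {A c : ℝ}
    (h : ∀ (k : Bool) (al : ℝ),
      ∫⁻ ω in bx T p n, ENNReal.ofReal (W ω) * ENNReal.ofReal (Real.exp (c / (1 + |al|) *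
          (nuF (r k) (spF p n k ω) fun t => bb t * Real.cos (al * t)) ^ 2)) ≤ ENNReal.ofReal A ∧
      ∫⁻ ω in bx T p n, ENNReal.ofReal (W ω) * ENNReal.ofReal (Real.exp (c / (1 + |al|) *
          (nuF (r k) (spF p n k ω) fun t => bb t * Real.sin (al * t)) ^ 2)) ≤ ENNReal.ofReal A) :
    SqC2 W T bb (r true) (r false) A c := by
  have go : ∀ F : Cfg p n → ℝ, ∫⁻ ω in bx T p n, ENNReal.ofReal (W ω) *
      ENNReal.ofReal (Real.exp (F ω)) ≤ ENNReal.ofReal A →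
      ∫⁻ x in NU42.Bw p n T, ENNReal.ofReal (W x * Real.exp (F x)) ≤ ENNReal.ofReal A := by
    intro F hF
    refine le_trans (le_of_eq ?_) hF
    rw [bx_eq]
    refine lintegral_congr fun x => ?_
    rw [ENNReal.ofReal_mul (hW x)]
  exact ⟨fun a => go _ (h true a).1, fun a => go _ (h true a).2, fun a => go _ (h false a).1,
    fun a => go _ (h false a).2⟩

theorem SqC2.mono {W : Cfg p n → ℝ} {T : ℝ} {bb ρ σ : ℝ → ℝ} {A A' c : ℝ}
    (h : SqC2 W T bb ρ σ A c) (hA : A ≤ A') : SqC2 W T bb ρ σ A' c :=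
  ⟨fun a => (h.cosX a).trans (ENNReal.ofReal_le_ofReal hA),
    fun a => (h.sinX a).trans (ENNReal.ofReal_le_ofReal hA),
    fun a => (h.cosY a).trans (ENNReal.ofReal_le_ofReal hA),
    fun a => (h.sinY a).trans (ENNReal.ofReal_le_ofReal hA)⟩

/-- **the dichotomy** -/
theorem dich2 {N : ℝ} (hN : 1 ≤ N) {C₂ C₃ : ℝ} (h2 : 0 ≤ C₂) (h3 : 0 ≤ C₃) : ∃ C₄ : ℝ, 1 ≤ C₄ ∧
    ∀ m : ℕ, 3 ≤ m → ∀ R : ℝ, 0 ≤ R → R ≤ 2 * Real.log m ^ 2 → ∀ {p n : ℕ}
    {DX DX1 DY DY1 : ℝ → ℂ}, Measurable DX → Measurable DX1 → Measurable DY → Measurable DY1 →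
    ∀ {a a' : ℝ → ℝ}, Measurable a → Measurable a' → (∀ t, 0 ≤ a t) → (∀ t, 0 ≤ a' t) →
    ∀ {cf B : ℝ → ℝ}, Measurable cf → Measurable B → ∀ {D q g A T0 : ℝ}, 0 ≤ D → 0 ≤ A → 0 < q →
    g < q → 0 ≤ g → (∀ t, 0 ≤ B t) → (∀ t, 0 ≤ cf t) → (∀ t, cf t ≤ Real.exp (B t)) →
    (∀ t, cf t ≤ D * Real.exp (-q * |t|)) → T0 ≤ R →
    1 + D * Real.exp (-q * T0) * Real.exp g / (1 - Real.exp (-(q - g))) ≤ Real.exp C₃ →
    ∀ {bb ρ σ : ℝ → ℝ}, Continuous bb → (∀ t, |t| ≤ R → bb t = 1) → (∀ t, |bb t| ≤ 1) →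
    Continuous ρ → Continuous σ → Integrable ρ → Integrable σ → ∫ t in {t | R < |t|}, |ρ t| ≤ 1 →
    ∫ t in {t | R < |t|}, |σ t| ≤ 1 → ∀ (al M : ℝ), 0 ≤ M →
    M ≤ C₂ * Real.log m ^ 6 →
    (∀ T, T0 ≤ T → T ≤ R → SqC2 (p := p) (n := n) (fun x => NU42.WO DX DX1 DY DY1
      (fun t => a t * Real.exp (B t)) (fun t => a' t * Real.exp (B t)) x.1 x.2) T bb ρ σ
        (A * (m : ℝ) ^ al * Real.exp (1 + M) * Real.exp (g * (T - T0))) (1 / (8 * (22 * (R + N))))) →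
    mWin (p := p) (n := n) R (fun x => ENNReal.ofReal (NU42.WO DX DX1 DY DY1 (fun t => a t * cf t)
      (fun t => a' t * cf t) x.1 x.2)) Set.univ ≤ ENNReal.ofReal (A * (m : ℝ) ^ (al - 1 / 2)) ∨
      (IsFiniteMeasure (mWin (p := p) (n := n) R (fun x => ENNReal.ofReal (NU42.WO DX DX1 DY DY1
        (fun t => a t * cf t) (fun t => a' t * cf t) x.1 x.2))) ∧
      RigB2 (mWin (p := p) (n := n) R (fun x => ENNReal.ofReal (NU42.WO DX DX1 DY DY1
        (fun t => a t * cf t) (fun t => a' t * cf t) x.1 x.2))) R ρ σ (C₄ * Real.log m ^ 8)) := by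
  obtain ⟨C₄, hC4, H⟩ := dicho_rig2 (C₁ := 44 * N) (C₂ := C₂ + 1) (C₃ := C₃) (by positivity)
    (by positivity) h3
  refine ⟨C₄, hC4, ?_⟩
  intro m hm R hR hR2 p n DX DX1 DY DY1 m1 m2 m3 m4 a a' ma ma' ha ha' cf B mc hB D q g A T0 hD hA
    hq hg hg0 hB0 h0 h1 hcf hTR hsum bb ρ σ hbc hb1 hbl hρc hσc hρ hσ hτ hτ' al M hM hM2 hw
  have hL := one_le_log hm
  have hmpos : (0 : ℝ) < m := by
    have : 0 < m := by omega
    exact_mod_cast this
  have hNpos : 0 < N := by linarith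
  have hc0 : 0 < 1 / (8 * (22 * (R + N))) := by positivity
  have hsq := sqW_shells2 (p := p) (n := n) m1 m2 m3 m4 ma ma' ha ha' hB hD
    (A := A * (m : ℝ) ^ al) (by positivity) hq hg hg0 hB0 h0 h1 hcf hTR hR hbc hb1 hbl hρ hσ hτ hτ'
    (K := 1 + M) hc0.le hw
  have mg : Measurable (fun x : Cfg p n => ENNReal.ofReal (NU42.WO DX DX1 DY DY1
      (fun t => a t * cf t) (fun t => a' t * cf t) x.1 x.2)) :=
    (NU42.WO_meas m1 m2 m3 m4 (ma.mul mc) (ma'.mul mc)).ennreal_ofReal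
  refine H m hm R hR hR2 mg hρc hσc A al (M + 1) hA (by positivity) ?_ ?_
  · have : 1 ≤ Real.log m ^ 6 := one_le_pow₀ hL
    nlinarith
  · refine (hsq.mono (fun x _ => le_rfl) (B' := ENNReal.ofReal (A * (m : ℝ) ^ al * Real.exp C₃))
      (ENNReal.ofReal_le_ofReal (by gcongr))).monoC ?_ ?_
    · rw [div_div]
      refine one_div_le_one_div_of_le (by positivity) ?_
      nlinarith [mul_nonneg (by linarith : (0:ℝ) ≤ N - 1) hR]
    · have h5 : 1 / (8 * (22 * (R + N))) ≤ 1 := by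
        rw [div_le_one (by positivity)]
        nlinarith
      nlinarith

end

end NUH0
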